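import Pool.Agent.helper68.FY.Spec

set_option autoImplicit false

namespace Pool.Agent.helper68.FY

open Finset

/-- first rows -/
def FC_x (w : V4 × V4) : V4 := ![w.1 0, w.1 1, w.2 0, w.2 1]

/-- second rows -/
def FC_y (w : V4 × V4) : V4 := ![w.1 2, w.1 3, w.2 2, w.2 3]

theorem FC_inj (w w' : V4 × V4) (h1 : FC_x w = FC_x w') (h2 : FC_y w = FC_y w') : w = w' := by
  have e (i : Fin 4) : FC_x w i = FC_x w' i := by rw [h1]
  have e' (i : Fin 4) : FC_y w i = FC_y w' i := by rw [h2]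
  have a0 := e 0
  have a1 := e 1
  have a2 := e 2
  have a3 := e 3
  have b0 := e' 0
  have b1 := e' 1
  have b2 := e' 2
  have b3 := e' 3
  simp only [FC_x, FC_y, Matrix.cons_val_zero, Matrix.cons_val_one, Matrix.cons_val] at a0 a1 a2 a3 b0 b1 b2 b3
  refine Prod.ext (funext fun i => ?_) (funext fun i => ?_)
  · fin_cases i <;> assumption
  · fin_cases i <;> assumption

theorem FC_nm_le (x : V4) (n : ℕ) (h : ∀ i, (x i).natAbs ≤ n) : nm x ≤ n :=
  Finset.sup_le fun i _ => h i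

theorem FC_le_nm (x : V4) (i : Fin 4) : (x i).natAbs ≤ nm x :=
  Finset.le_sup (f := fun i => (x i).natAbs) (Finset.mem_univ i)

theorem FC_nm_attained (x : V4) : ∃ i, (x i).natAbs = nm x := by
  obtain ⟨i, -, hi⟩ := Finset.exists_mem_eq_sup (Finset.univ : Finset (Fin 4)) ⟨0, Finset.mem_univ 0⟩
    (fun i => (x i).natAbs)
  exact ⟨i, hi.symm⟩

theorem FC_box (g : V4) (Q : ℕ) (h : g ∈ box Q) (i : Fin 4) : |g i| ≤ (Q : ℤ) := by
  unfold box at h
  rw [Fintype.mem_piFinset] at h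
  have := h i
  rw [Finset.mem_Icc] at this
  exact abs_le.2 this

theorem FC_NB (g : V4) (Q L : ℕ) (h : g ∈ NB Q L) :
    (∀ i, |g i| ≤ (Q : ℤ)) ∧ dt g ≠ 0 ∧ |g 2| ≤ (L : ℤ) ∧ |g 3| ≤ (L : ℤ) := by
  unfold NB at h
  rw [Finset.mem_filter] at h
  exact ⟨FC_box g Q h.1, h.2⟩

theorem FC_mul_le {a b A B : ℤ} (h1 : |a| ≤ A) (h2 : |b| ≤ B) : |a * b| ≤ A * B := by
  rw [abs_mul]
  exact mul_le_mul h1 h2 (abs_nonneg _) ((abs_nonneg _).trans h1)

theorem FC_sub_le {a b A B : ℤ} (h1 : |a| ≤ A) (h2 : |b| ≤ B) : |a - b| ≤ A + B := by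
  have := abs_sub a b
  linarith

theorem FC_dt_le (g : V4) (Q L : ℕ) (h : g ∈ NB Q L) : |dt g| ≤ 2 * Q * L := by
  obtain ⟨h1, -, h3, h4⟩ := FC_NB g Q L h
  unfold dt
  have a := FC_mul_le (h1 0) h4
  have b := FC_mul_le (h1 1) h3
  have := FC_sub_le a b
  linarith

theorem FC_am_le (g h : V4) (Q L : ℕ) (hg : g ∈ NB Q L) (hh : h ∈ NB Q L) (i : Fin 4) :
    |am h g i| ≤ 2 * Q * L := by
  obtain ⟨h1, -, h3, h4⟩ := FC_NB g Q L hg
  obtain ⟨k1, -, k3, k4⟩ := FC_NB h Q L hh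
  fin_cases i
  · have a := FC_mul_le k4 (h1 0)
    have b := FC_mul_le (k1 1) h3
    have := FC_sub_le a b
    simp only [am]
    simp only [Fin.zero_eta, Matrix.cons_val_zero]
    linarith
  · have a := FC_mul_le k4 (h1 1)
    have b := FC_mul_le (k1 1) h4
    have := FC_sub_le a b
    simp only [am]
    simp only [Fin.mk_one, Matrix.cons_val_one, Matrix.cons_val_zero]
    linarith
  · have a := FC_mul_le (k1 0) h3
    have b := FC_mul_le k3 (h1 0)
    have := FC_sub_le a b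
    simp only [am]
    simp only [Fin.reduceFinMk, Matrix.cons_val]
    linarith
  · have a := FC_mul_le (k1 0) h4
    have b := FC_mul_le k3 (h1 1)
    have := FC_sub_le a b
    simp only [am]
    simp only [Fin.reduceFinMk, Matrix.cons_val]
    linarith

theorem FC_dt_am (g h : V4) : dt (am h g) = dt g * dt h := by
  simp only [dt, am, Matrix.cons_val_zero, Matrix.cons_val_one, Matrix.cons_val]
  ring

/-- all the 2x2 minors of the rows in terms of `dt g`, `dt h`, `adj h * g` -/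
theorem FC_pl (w w' : V4 × V4) (h1 : dt w.1 = dt w'.1) (h2 : dt w.2 = dt w'.2)
    (h3 : am w.2 w.1 = am w'.2 w'.1) (k l : Fin 4) :
    pl (FC_x w) (FC_y w) k l = pl (FC_x w') (FC_y w') k l := by
  have a0 : am w.2 w.1 0 = am w'.2 w'.1 0 := by rw [h3]
  have a1 : am w.2 w.1 1 = am w'.2 w'.1 1 := by rw [h3]
  have a2 : am w.2 w.1 2 = am w'.2 w'.1 2 := by rw [h3]
  have a3 : am w.2 w.1 3 = am w'.2 w'.1 3 := by rw [h3]
  simp only [dt] at h1 h2
  simp only [am, Matrix.cons_val_zero, Matrix.cons_val_one, Matrix.cons_val] at a0 a1 a2 a3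
  fin_cases k <;> fin_cases l <;>
    simp only [pl, FC_x, FC_y, Fin.zero_eta, Fin.mk_one, Fin.reduceFinMk, Matrix.cons_val_zero,
      Matrix.cons_val_one, Matrix.cons_val] <;> linarith

theorem FC_pl_am (w : V4 × V4) :
    pl (FC_x w) (FC_y w) 0 1 = dt w.1 ∧ pl (FC_x w) (FC_y w) 0 3 = am w.2 w.1 0 ∧
    pl (FC_x w) (FC_y w) 1 3 = am w.2 w.1 1 ∧ pl (FC_x w) (FC_y w) 0 2 = - am w.2 w.1 2 ∧
    pl (FC_x w) (FC_y w) 1 2 = - am w.2 w.1 3 := by
  refine ⟨?_, ?_, ?_, ?_, ?_⟩ <;>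
    · simp only [pl, FC_x, FC_y, am, dt, Matrix.cons_val_zero, Matrix.cons_val_one,
        Matrix.cons_val]
      try ring

/-- for each coordinate of `adj h * g` there is a minor equal to it up to sign -/
theorem FC_pl_abs (w : V4 × V4) (i : Fin 4) :
    ∃ k l : Fin 4, (pl (FC_x w) (FC_y w) k l).natAbs = (am w.2 w.1 i).natAbs := by
  obtain ⟨-, h0, h1, h2, h3⟩ := FC_pl_am w
  fin_cases i
  · exact ⟨0, 3, by rw [h0]; rfl⟩
  · exact ⟨1, 3, by rw [h1]; rfl⟩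
  · exact ⟨0, 2, by rw [h2, Int.natAbs_neg]; rfl⟩
  · exact ⟨1, 2, by rw [h3, Int.natAbs_neg]; rfl⟩

theorem FC_dvd (w : V4 × V4) (c : ℤ) (h : ∀ k l, c ∣ pl (FC_x w) (FC_y w) k l) (i : Fin 4) :
    c ∣ am w.2 w.1 i := by
  obtain ⟨k, l, hkl⟩ := FC_pl_abs w i
  rw [← Int.natAbs_dvd_natAbs, ← hkl, Int.natAbs_dvd_natAbs]
  exact h k l

theorem FC_prim_dvd (γ : V4) (hγ : prim γ) (t c : ℤ) (h : ∀ i, c ∣ t * γ i) : c ∣ t := by
  have h1 : c ∣ (Finset.univ : Finset (Fin 4)).gcd (fun i => t * γ i) :=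
    Finset.dvd_gcd fun i _ => h i
  rw [Finset.gcd_mul_left] at h1
  have h2 : ((Finset.univ : Finset (Fin 4)).gcd γ).natAbs = 1 :=
    hγ _ fun i => Finset.gcd_dvd (Finset.mem_univ i)
  have h3 : IsUnit ((Finset.univ : Finset (Fin 4)).gcd γ) := Int.isUnit_iff_natAbs_eq.2 h2
  have h4 : c ∣ normalize t := (h3.dvd_mul_right).1 h1
  exact h4.trans (normalize_dvd_iff.2 dvd_rfl)

/-- the main count: one value of `t` and of `dt g` -/
theorem FC_fiber (hNP : NP_stmt) (Q L D : ℕ) (γ : V4) (hL : 1 ≤ L) (hLQ : L ≤ Q) (hγ : prim γ)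
    (hD : ∀ n, 1 ≤ n → n ≤ 4 * Q ^ 4 → n.divisors.card ≤ D) (t a : ℤ) (ht : t ≠ 0)
    (F : Finset (V4 × V4)) (hF : ∀ w ∈ F, w.1 ∈ NB Q L ∧ w.2 ∈ NB Q L ∧ am w.2 w.1 = t • γ ∧
      dt w.1 = a) : F.card * nm γ ≤ 192 * D * Q ^ 2 := by
  classical
  rcases F.eq_empty_or_nonempty with h | ⟨w₀, hw₀⟩
  · rw [h]; simp
  obtain ⟨hg, hh, ham, hdt⟩ := hF w₀ hw₀
  have ha : a ≠ 0 := by rw [← hdt]; exact (FC_NB _ _ _ hg).2.1
  have hQ : 1 ≤ Q := hL.trans hLQ
  -- all pairs have the same minors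
  have hpl : ∀ w ∈ F, ∀ k l, pl (FC_x w) (FC_y w) k l = pl (FC_x w₀) (FC_y w₀) k l := by
    intro w hw k l
    obtain ⟨h1, h2, h3, h4⟩ := hF w hw
    have h5 : am w.2 w.1 = am w₀.2 w₀.1 := by rw [h3, ham]
    refine FC_pl w w₀ (by rw [h4, hdt]) ?_ h5 k l
    have h6 := FC_dt_am w.1 w.2
    have h7 := FC_dt_am w₀.1 w₀.2
    rw [h5, h7, hdt, h4] at h6
    exact (mul_left_cancel₀ ha h6).symm
  -- gcd of the minors
  obtain ⟨P, hP1, hP2⟩ := Finset.extract_gcd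
    (fun kl : Fin 4 × Fin 4 => pl (FC_x w₀) (FC_y w₀) kl.1 kl.2)
    (Finset.univ_nonempty : (Finset.univ : Finset (Fin 4 × Fin 4)).Nonempty)
  set c : ℤ := (Finset.univ : Finset (Fin 4 × Fin 4)).gcd
    (fun kl : Fin 4 × Fin 4 => pl (FC_x w₀) (FC_y w₀) kl.1 kl.2) with hc
  have hcP : ∀ k l, pl (FC_x w₀) (FC_y w₀) k l = c * P (k, l) := fun k l =>
    hP1 (k, l) (Finset.mem_univ _)
  have hprim : ∀ s : ℤ, (∀ k l, s ∣ P (k, l)) → s.natAbs = 1 := by
    intro s hs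
    have h1 : s ∣ (Finset.univ : Finset (Fin 4 × Fin 4)).gcd P :=
      Finset.dvd_gcd fun kl _ => hs kl.1 kl.2
    rw [hP2] at h1
    exact Int.isUnit_iff_natAbs_eq.1 (isUnit_of_dvd_one h1)
  have hcd : c ∣ a := ⟨P (0, 1), by rw [← hcP 0 1, (FC_pl_am w₀).1, hdt]⟩
  have hc0 : c ≠ 0 := by
    rintro h0
    rw [h0] at hcd
    exact ha (zero_dvd_iff.1 hcd)
  have hcD : c.natAbs.divisors.card ≤ D := by
    refine hD _ (Int.natAbs_pos.2 hc0) ?_
    have h1 : c.natAbs ≤ a.natAbs := Nat.le_of_dvd (Int.natAbs_pos.2 ha) (Int.natAbs_dvd_natAbs.2 hcd)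
    have h2 := FC_dt_le w₀.1 Q L hg
    rw [hdt] at h2
    have h3 : a.natAbs ≤ 2 * Q * L := by
      have : (a.natAbs : ℤ) ≤ 2 * Q * L := by rw [Int.natCast_natAbs]; exact h2
      exact_mod_cast this
    have h4 : 2 * Q * L ≤ 2 * Q * Q := Nat.mul_le_mul_left _ hLQ
    have h5 : 2 * Q * Q ≤ 4 * Q ^ 4 := by
      have : Q ^ 2 ≤ Q ^ 4 := Nat.pow_le_pow_right hQ (by norm_num)
      nlinarith
    omega
  have hct : c ∣ t := by
    refine FC_prim_dvd γ hγ t c fun i => ?_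
    have h1 : am w₀.2 w₀.1 i = t * γ i := by rw [ham]; rfl
    rw [← h1]
    exact FC_dvd w₀ c (fun k l => ⟨P (k, l), hcP k l⟩) i
  obtain ⟨i, hi⟩ := FC_nm_attained γ
  obtain ⟨k, l, hkl⟩ := FC_pl_abs w₀ i
  have hge : nm γ ≤ (P (k, l)).natAbs := by
    have h1 : am w₀.2 w₀.1 i = t * γ i := by rw [ham]; rfl
    rw [h1, Int.natAbs_mul, hi, hcP k l, Int.natAbs_mul] at hkl
    have h2 : c.natAbs ≤ t.natAbs := Nat.le_of_dvd (Int.natAbs_pos.2 ht) (Int.natAbs_dvd_natAbs.2 hct)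
    have h3 : t.natAbs * nm γ ≤ t.natAbs * (P (k, l)).natAbs := by
      rw [← hkl]
      exact Nat.mul_le_mul_right _ h2
    exact Nat.le_of_mul_le_mul_left h3 (Int.natAbs_pos.2 ht)
  -- apply NP
  have key := hNP Q D (fun k l => P (k, l)) c k l hQ hc0 hprim hcD
    (F.image fun w => (FC_x w, FC_y w)) ?_
  · rw [Finset.card_image_of_injective _ (fun w w' h => FC_inj w w' (Prod.ext_iff.1 h).1
      (Prod.ext_iff.1 h).2)] at key
    exact (Nat.mul_le_mul_left _ hge).trans key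
  · intro z hz
    rw [Finset.mem_image] at hz
    obtain ⟨w, hw, rfl⟩ := hz
    obtain ⟨h1, h2, -, -⟩ := hF w hw
    have b1 := (FC_NB _ _ _ h1).1
    have b2 := (FC_NB _ _ _ h2).1
    have conv : ∀ z : ℤ, |z| ≤ (Q : ℤ) → z.natAbs ≤ Q := by
      intro z hz
      have : (z.natAbs : ℤ) ≤ Q := by rw [Int.natCast_natAbs]; exact hz
      exact_mod_cast this
    refine ⟨FC_nm_le _ _ fun i => ?_, FC_nm_le _ _ fun i => ?_, fun k l => ?_⟩
    · fin_cases i
      · exact conv _ (b1 0)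
      · exact conv _ (b1 1)
      · exact conv _ (b2 0)
      · exact conv _ (b2 1)
    · fin_cases i
      · exact conv _ (b1 2)
      · exact conv _ (b1 3)
      · exact conv _ (b2 2)
      · exact conv _ (b2 3)
    · show pl (FC_x w) (FC_y w) k l = c * P (k, l)
      rw [hpl w hw k l, hcP k l]

/-- signed divisors -/
def FC_sd (M : ℤ) : Finset ℤ :=
  (M.natAbs.divisors.image fun d : ℕ => (d : ℤ)) ∪ (M.natAbs.divisors.image fun d : ℕ => -(d : ℤ))

theorem FC_sd_card (M : ℤ) : (FC_sd M).card ≤ 2 * M.natAbs.divisors.card := by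
  unfold FC_sd
  refine (Finset.card_union_le _ _).trans ?_
  have h1 := Finset.card_image_le (s := M.natAbs.divisors) (f := fun d : ℕ => (d : ℤ))
  have h2 := Finset.card_image_le (s := M.natAbs.divisors) (f := fun d : ℕ => -(d : ℤ))
  omega

theorem FC_sd_mem (M a b : ℤ) (hM : M ≠ 0) (h : a * b = M) : a ∈ FC_sd M := by
  have h1 : a.natAbs ∈ M.natAbs.divisors :=
    Nat.mem_divisors.2 ⟨Int.natAbs_dvd_natAbs.2 ⟨b, h.symm⟩, fun h0 => hM (Int.natAbs_eq_zero.1 h0)⟩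
  unfold FC_sd
  rw [Finset.mem_union, Finset.mem_image, Finset.mem_image]
  rcases Int.natAbs_eq a with h2 | h2
  · exact Or.inl ⟨_, h1, h2.symm⟩
  · exact Or.inr ⟨_, h1, h2.symm⟩

theorem FC (hNP : NP_stmt) : FC_stmt := by
  classical
  intro Q L D γ hL hLQ hγ hdγ hD F hF
  have hQ : 1 ≤ Q := hL.trans hLQ
  have hnm : 1 ≤ nm γ := by
    by_contra h0
    have h1 : nm γ = 0 := by omega
    have h2 : ∀ i, γ i = 0 := fun i => by
      have := FC_le_nm γ i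
      rw [h1] at this
      exact Int.natAbs_eq_zero.1 (by omega)
    apply hdγ
    unfold dt
    rw [h2 0, h2 1]
    ring
  have hex : ∀ w ∈ F, ∃ t : ℤ, am w.2 w.1 = t • γ := fun w hw => (hF w hw).2.2
  choose! t ht using hex
  -- facts on t
  have hM : ∀ w ∈ F, dt w.1 * dt w.2 = t w ^ 2 * dt γ := by
    intro w hw
    rw [← FC_dt_am, ht w hw]
    simp only [dt, Pi.smul_apply, smul_eq_mul]
    ring
  have hM0 : ∀ w ∈ F, t w ^ 2 * dt γ ≠ 0 := by
    intro w hw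
    rw [← hM w hw]
    exact mul_ne_zero (FC_NB _ _ _ (hF w hw).1).2.1 (FC_NB _ _ _ (hF w hw).2.1).2.1
  have ht0 : ∀ w ∈ F, t w ≠ 0 := by
    intro w hw h0
    apply hM0 w hw
    rw [h0]
    ring
  have hdiv : ∀ w ∈ F, (t w ^ 2 * dt γ).natAbs.divisors.card ≤ D := by
    intro w hw
    refine hD _ (Int.natAbs_pos.2 (hM0 w hw)) ?_
    have h1 := FC_dt_le _ _ _ (hF w hw).1
    have h2 := FC_dt_le _ _ _ (hF w hw).2.1
    have h3 := FC_mul_le h1 h2
    rw [hM w hw] at h3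
    have h4 : ((t w ^ 2 * dt γ).natAbs : ℤ) ≤ 2 * Q * L * (2 * Q * L) := by
      rw [Int.natCast_natAbs]; exact h3
    have h5 : (t w ^ 2 * dt γ).natAbs ≤ 2 * Q * L * (2 * Q * L) := by exact_mod_cast h4
    have h6 : 2 * Q * L * (2 * Q * L) ≤ 2 * Q * Q * (2 * Q * Q) :=
      Nat.mul_le_mul (Nat.mul_le_mul_left _ hLQ) (Nat.mul_le_mul_left _ hLQ)
    have h7 : 2 * Q * Q * (2 * Q * Q) = 4 * Q ^ 4 := by ring
    omega
  have htle : ∀ w ∈ F, (t w).natAbs ≤ 2 * Q * L / nm γ := by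
    intro w hw
    rw [Nat.le_div_iff_mul_le (by omega)]
    obtain ⟨i, hi⟩ := FC_nm_attained γ
    have h1 := FC_am_le w.1 w.2 Q L (hF w hw).1 (hF w hw).2.1 i
    have h2 : am w.2 w.1 i = t w * γ i := by rw [ht w hw]; rfl
    rw [h2] at h1
    have h3 : ((t w * γ i).natAbs : ℤ) ≤ 2 * Q * L := by rw [Int.natCast_natAbs]; exact h1
    rw [Int.natAbs_mul, hi] at h3
    exact_mod_cast h3
  obtain ⟨T, hT⟩ : ∃ T : ℕ, T = 2 * Q * L / nm γ := ⟨_, rfl⟩
  have h2 : T * nm γ ≤ 2 * Q * L := by rw [hT]; exact Nat.div_mul_le_self _ _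
  rw [← hT] at htle
  clear hT
  -- the values of t
  have hcardT : (F.image t).card ≤ 2 * T := by
    have hsub : F.image t ⊆ (Finset.Icc (-(T : ℤ)) T).erase 0 := by
      intro s hs
      rw [Finset.mem_image] at hs
      obtain ⟨w, hw, rfl⟩ := hs
      rw [Finset.mem_erase, Finset.mem_Icc]
      have := htle w hw
      exact ⟨ht0 w hw, by omega, by omega⟩
    refine (Finset.card_le_card hsub).trans ?_
    rw [Finset.card_erase_of_mem (by rw [Finset.mem_Icc]; constructor <;> omega), Int.card_Icc]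
    omega
  -- the values of (t, dt g)
  have hcardI : (F.image fun w => (t w, dt w.1)).card ≤ 2 * T * (2 * D) := by
    have hsub : (F.image fun w => (t w, dt w.1)) ⊆
        (F.image t).biUnion fun s => (FC_sd (s ^ 2 * dt γ)).image fun a => (s, a) := by
      intro z hz
      rw [Finset.mem_image] at hz
      obtain ⟨w, hw, rfl⟩ := hz
      rw [Finset.mem_biUnion]
      refine ⟨t w, Finset.mem_image_of_mem _ hw, ?_⟩
      rw [Finset.mem_image]
      exact ⟨dt w.1, FC_sd_mem _ _ (dt w.2) (hM0 w hw) (hM w hw), rfl⟩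
    refine (Finset.card_le_card hsub).trans ?_
    refine (Finset.card_biUnion_le_card_mul _ _ (2 * D) ?_).trans (Nat.mul_le_mul_right _ hcardT)
    intro s hs
    rw [Finset.mem_image] at hs
    obtain ⟨w, hw, rfl⟩ := hs
    refine Finset.card_image_le.trans ((FC_sd_card _).trans ?_)
    exact Nat.mul_le_mul_left _ (hdiv w hw)
  -- fibres
  have hfib : ∀ z ∈ F.image (fun w => (t w, dt w.1)),
      (F.filter fun w => (t w, dt w.1) = z).card ≤ 192 * D * Q ^ 2 / nm γ := by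
    intro z hz
    rw [Finset.mem_image] at hz
    obtain ⟨w₀, hw₀, rfl⟩ := hz
    rw [Nat.le_div_iff_mul_le (by omega)]
    refine FC_fiber hNP Q L D γ hL hLQ hγ hD (t w₀) (dt w₀.1) (ht0 w₀ hw₀) _ ?_
    intro w hw
    rw [Finset.mem_filter] at hw
    obtain ⟨hw, he⟩ := hw
    have e1 := (Prod.ext_iff.1 he).1
    have e2 := (Prod.ext_iff.1 he).2
    simp only at e1 e2
    exact ⟨(hF w hw).1, (hF w hw).2.1, by rw [← e1]; exact ht w hw, e2⟩
  have hmain := Finset.card_le_mul_card_image F _ hfib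
  have h1 : 192 * D * Q ^ 2 / nm γ * nm γ ≤ 192 * D * Q ^ 2 := Nat.div_mul_le_self _ _
  calc F.card * nm γ ^ 2
      ≤ (192 * D * Q ^ 2 / nm γ * (2 * T * (2 * D))) * nm γ ^ 2 :=
        Nat.mul_le_mul_right _ (hmain.trans (Nat.mul_le_mul_left _ hcardI))
    _ = (192 * D * Q ^ 2 / nm γ * nm γ) * (4 * D * (T * nm γ)) := by ring
    _ ≤ (192 * D * Q ^ 2) * (4 * D * (2 * Q * L)) :=
        Nat.mul_le_mul h1 (Nat.mul_le_mul_left _ h2)
    _ = 1536 * D ^ 2 * Q ^ 3 * L := by ring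

end Pool.Agent.helper68.FY
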